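import Mathlib
import Pool.Agent.H221R3.MD.Stmts

/-! helper116: task C of project MD. -/

set_option autoImplicit false

namespace Pool.Agent.H116R3.MD

open Finset Pool.Agent.H221R3.MD

theorem prodsum {n q : ℕ} (f : Fin n → Fin q → ℝ) :
    ∑ a : Fin n → Fin q, ∏ k, f k (a k) = ∏ k, ∑ u, f k u := by
  rw [Finset.prod_univ_sum, Fintype.piFinset_univ]

theorem prodsum2 {n q : ℕ} (f : Fin n → Fin q → Fin q → ℝ) :
    ∑ a : Fin n → Fin q, ∑ b : Fin n → Fin q, ∏ k, f k (a k) (b k) = ∏ k, ∑ u, ∑ v, f k u v := by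
  have h : ∀ a : Fin n → Fin q, ∑ b : Fin n → Fin q, ∏ k, f k (a k) (b k) =
      ∏ k, ∑ v, f k (a k) v := fun a => prodsum (fun k v => f k (a k) v)
  rw [Finset.sum_congr rfl fun a _ => h a]
  exact prodsum (fun k u => ∑ v, f k u v)

theorem one_coord {q : ℕ} {D : Fin q → Fin q → ℕ} {K : Fin q → Fin q → ℝ} {C R : ℝ}
    (h0 : ∀ u v, 0 ≤ K u v) (hsym : ∀ u v, K u v = K v u) (hmass : ∑ u, ∑ v, K u v = C)
    (hD : ∀ u s, (D u s : ℝ) ≤ R) (w : Fin q) (l : ℝ) :
    ∑ u, ∑ v, K u v * Real.exp (l * ((D u w : ℝ) - (D v w : ℝ))) ≤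
      C * Real.exp (l ^ 2 * R ^ 2 / 2) := by
  have hswap : ∑ u, ∑ v, K u v * Real.exp (l * ((D u w : ℝ) - (D v w : ℝ))) =
      ∑ u, ∑ v, K u v * Real.exp (-(l * ((D u w : ℝ) - (D v w : ℝ)))) := by
    rw [Finset.sum_comm]
    refine Finset.sum_congr rfl fun u _ => Finset.sum_congr rfl fun v _ => ?_
    rw [hsym v u]
    congr 2
    ring
  have h2 : ∑ u, ∑ v, K u v * Real.exp (l * ((D u w : ℝ) - (D v w : ℝ))) =
      ∑ u, ∑ v, K u v * Real.cosh (l * ((D u w : ℝ) - (D v w : ℝ))) := by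
    have h3 : ∑ u, ∑ v, K u v * Real.cosh (l * ((D u w : ℝ) - (D v w : ℝ))) =
        (∑ u, ∑ v, K u v * Real.exp (l * ((D u w : ℝ) - (D v w : ℝ))) +
          ∑ u, ∑ v, K u v * Real.exp (-(l * ((D u w : ℝ) - (D v w : ℝ))))) / 2 := by
      rw [← Finset.sum_add_distrib, Finset.sum_div]
      refine Finset.sum_congr rfl fun u _ => ?_
      rw [← Finset.sum_add_distrib, Finset.sum_div]
      refine Finset.sum_congr rfl fun v _ => ?_
      rw [Real.cosh_eq]
      ring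
    rw [h3, ← hswap]
    ring
  rw [h2, ← hmass, Finset.sum_mul]
  refine Finset.sum_le_sum fun u _ => ?_
  rw [Finset.sum_mul]
  refine Finset.sum_le_sum fun v _ => ?_
  refine mul_le_mul_of_nonneg_left ?_ (h0 u v)
  refine (Real.cosh_le_exp_half_sq _).trans (Real.exp_le_exp.2 ?_)
  have hu := hD u w
  have hv := hD v w
  have hu0 : (0 : ℝ) ≤ D u w := Nat.cast_nonneg _
  have hv0 : (0 : ℝ) ≤ D v w := Nat.cast_nonneg _
  have h4 : ((D u w : ℝ) - (D v w : ℝ)) ^ 2 ≤ R ^ 2 := by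
    apply sq_le_sq'
    · linarith
    · linarith
  have h5 := mul_le_mul_of_nonneg_left h4 (sq_nonneg l)
  rw [mul_pow]
  linarith

theorem key {q n : ℕ} {D : Fin q → Fin q → ℕ} {K : Fin q → Fin q → ℝ} {C R : ℝ}
    (h0 : ∀ u v, 0 ≤ K u v) (hsym : ∀ u v, K u v = K v u) (hmass : ∑ u, ∑ v, K u v = C)
    (hD : ∀ u s, (D u s : ℝ) ≤ R) (s : Fin n → Fin q) (l : ℝ) :
    ∑ a : Fin n → Fin q, ∑ b : Fin n → Fin q, (∏ k, K (a k) (b k)) *
      Real.exp (l * (ms D a b s : ℝ)) ≤ (C * Real.exp (l ^ 2 * R ^ 2 / 2)) ^ n := by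
  have e1 : ∀ a b : Fin n → Fin q, (∏ k, K (a k) (b k)) * Real.exp (l * (ms D a b s : ℝ)) =
      ∏ k, (K (a k) (b k) * Real.exp (l * ((D (a k) (s k) : ℝ) - (D (b k) (s k) : ℝ)))) := by
    intro a b
    rw [Finset.prod_mul_distrib, ← Real.exp_sum, ← Finset.mul_sum]
    congr 3
    unfold ms
    push_cast
    rfl
  rw [Finset.sum_congr rfl fun a _ => Finset.sum_congr rfl fun b _ => e1 a b]
  rw [prodsum2 (fun k u v => K u v * Real.exp (l * ((D u (s k) : ℝ) - (D v (s k) : ℝ))))]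
  calc ∏ k, ∑ u, ∑ v, K u v * Real.exp (l * ((D u (s k) : ℝ) - (D v (s k) : ℝ)))
      ≤ ∏ _k : Fin n, (C * Real.exp (l ^ 2 * R ^ 2 / 2)) := by
        refine Finset.prod_le_prod (fun k _ => ?_) (fun k _ => one_coord h0 hsym hmass hD (s k) l)
        exact Finset.sum_nonneg fun u _ => Finset.sum_nonneg fun v _ =>
          mul_nonneg (h0 u v) (Real.exp_pos _).le
    _ = (C * Real.exp (l ^ 2 * R ^ 2 / 2)) ^ n := by
        rw [Finset.prod_const, Finset.card_univ, Fintype.card_fin]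

theorem taskC : TaskC := by
  intro q n D K C R hK hR hn hD s t ht
  obtain ⟨h0, hsym, htr, hmass, -⟩ := hK
  have hn' : (0 : ℝ) < n := by exact_mod_cast hn
  have hC : 0 ≤ C := by
    rw [← hmass]
    exact Finset.sum_nonneg fun u _ => Finset.sum_nonneg fun v _ => h0 u v
  obtain ⟨l, hl⟩ : ∃ l : ℝ, l = t / (n * R ^ 2) := ⟨_, rfl⟩
  have hl0 : 0 ≤ l := by
    rw [hl]
    positivity
  have hind : ∀ a b : Fin n → Fin q, (∏ k, K (a k) (b k)) *
      (if t < |(ms D a b s : ℝ)| then (1 : ℝ) else 0) ≤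
      Real.exp (-(l * t)) * ((∏ k, K (a k) (b k)) * Real.exp (l * (ms D a b s : ℝ))) +
      Real.exp (-(l * t)) * ((∏ k, K (a k) (b k)) * Real.exp (-l * (ms D a b s : ℝ))) := by
    intro a b
    have hP : 0 ≤ ∏ k, K (a k) (b k) := Finset.prod_nonneg fun k _ => h0 _ _
    have h1 : (if t < |(ms D a b s : ℝ)| then (1 : ℝ) else 0) ≤
        Real.exp (-(l * t)) * Real.exp (l * (ms D a b s : ℝ)) +
        Real.exp (-(l * t)) * Real.exp (-l * (ms D a b s : ℝ)) := by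
      rw [← Real.exp_add, ← Real.exp_add]
      split_ifs with h
      · rcases lt_abs.1 h with h | h
        · have h2 : 0 ≤ -(l * t) + l * (ms D a b s : ℝ) := by nlinarith
          have h3 := Real.one_le_exp h2
          have h4 := (Real.exp_pos (-(l * t) + -l * (ms D a b s : ℝ))).le
          linarith
        · have h2 : 0 ≤ -(l * t) + -l * (ms D a b s : ℝ) := by nlinarith
          have h3 := Real.one_le_exp h2
          have h4 := (Real.exp_pos (-(l * t) + l * (ms D a b s : ℝ))).le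
          linarith
      · positivity
    have h2 := mul_le_mul_of_nonneg_left h1 hP
    linarith
  have hsum : ∑ a : Fin n → Fin q, ∑ b : Fin n → Fin q,
      (∏ k, K (a k) (b k)) * (if t < |(ms D a b s : ℝ)| then (1 : ℝ) else 0) ≤
      Real.exp (-(l * t)) * (∑ a : Fin n → Fin q, ∑ b : Fin n → Fin q,
        (∏ k, K (a k) (b k)) * Real.exp (l * (ms D a b s : ℝ))) +
      Real.exp (-(l * t)) * (∑ a : Fin n → Fin q, ∑ b : Fin n → Fin q,
        (∏ k, K (a k) (b k)) * Real.exp (-l * (ms D a b s : ℝ))) := by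
    rw [Finset.mul_sum, Finset.mul_sum, ← Finset.sum_add_distrib]
    refine Finset.sum_le_sum fun a _ => ?_
    rw [Finset.mul_sum, Finset.mul_sum, ← Finset.sum_add_distrib]
    exact Finset.sum_le_sum fun b _ => hind a b
  refine hsum.trans ?_
  have k1 := mul_le_mul_of_nonneg_left (key h0 hsym hmass hD s l) (Real.exp_pos (-(l * t))).le
  have k2 := mul_le_mul_of_nonneg_left (key h0 hsym hmass hD s (-l)) (Real.exp_pos (-(l * t))).le
  have e2 : Real.exp (-(l * t)) * (C * Real.exp (l ^ 2 * R ^ 2 / 2)) ^ n =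
      Real.exp (-(t ^ 2) / (2 * n * R ^ 2)) * C ^ n := by
    rw [mul_pow, ← Real.exp_nat_mul, mul_comm (C ^ n), ← mul_assoc, ← Real.exp_add]
    congr 2
    rw [hl]
    field_simp
    ring
  have e3 : (-l) ^ 2 = l ^ 2 := by ring
  rw [e3] at k2
  rw [e2] at k1 k2
  linarith

end Pool.Agent.H116R3.MD
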